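import Pool.Agent.Helper26.SMU.Constr

/-!
# The MLE over scale mixtures of uniforms is not `O_P((log n)^(d-1))` at the origin

We use the definitions of `Pool.Agent.Helper26.SMU.Defs`:
`IsMixing G` (`G` is a Borel probability distribution on `(0,∞)^d`), `dens G` (the density `f_G`),
`atOrigin G` (the value `f_G(0) = ∫ dG(y)/|y|`), `law G` (the law with Lebesgue density `f_G`), and
`IsMLE x G` (`G` maximises the log-likelihood `∑ i, log f_G(x_i)` of the sample `x`).

For every `d ≥ 2` and every rate `r_n = o((log n)^d)` there is `f_0` in the class with `f_0(0) = 1`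
such that the MLE at the origin, divided by `r_n`, tends to infinity in probability.
The rate `r_n = (log n)^(d-1)` gives the negative answer to the question.
-/

open MeasureTheory ProbabilityTheory Filter Topology
open scoped ENNReal
open Pool.Agent.Helper26.SMU

namespace Pool.Agent.Results.MP_a4ac49_pr.LogRateFails

theorem result (d : ℕ) (hd : 2 ≤ d) (r : ℕ → ℝ)
    (hr : Tendsto (fun n : ℕ => r n / Real.log n ^ d) atTop (𝓝 0)) :
    ∃ G₀ : Measure (Fin d → ℝ), IsMixing G₀ ∧ IsProbabilityMeasure (law G₀) ∧ atOrigin G₀ = 1 ∧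
      ∀ M ε : ℝ, 0 < ε → ∀ᶠ n : ℕ in atTop,
        ∃ A : Set (Fin n → Fin d → ℝ), MeasurableSet A ∧
          ENNReal.ofReal (1 - ε) ≤ Measure.pi (fun _ : Fin n => law G₀) A ∧
          ∀ x ∈ A, (∃ G, IsMLE x G) ∧
            ∀ G, IsMLE x G → ENNReal.ofReal (M * r n) < atOrigin G := by
  have hd0 : 0 < d := by omega
  have hd' : (0 : ℝ) < d := by exact_mod_cast hd0
  set D : ℝ := (d : ℝ) ^ d with hD
  have hD0 : 0 < D := by positivity
  set η : ℕ → ℝ := fun n => |r n / Real.log n ^ d| with hη
  have hη0 : Tendsto η atTop (𝓝 0) := by simpa using hr.abs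
  have hlogn : ∀ n : ℕ, 0 ≤ Real.log n := fun n => Real.log_natCast_nonneg n
  have hlogtop : Tendsto (fun n : ℕ => Real.log n) atTop atTop :=
    Real.tendsto_log_atTop.comp tendsto_natCast_atTop_atTop
  set a : ℕ → ℝ := fun n => 8 * D * (Real.sqrt (η n) + 1 / (1 + Real.log n)) with ha
  have ha0 : ∀ n, 0 < a n := by
    intro n
    have := hlogn n
    simp only [ha]
    positivity
  have hsq : Tendsto (fun n => Real.sqrt (η n)) atTop (𝓝 0) := by
    have h1 := (Real.continuous_sqrt.tendsto 0).comp hη0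
    rw [Real.sqrt_zero] at h1
    exact h1
  have hat : Tendsto a atTop (𝓝 0) := by
    have h1 : Tendsto (fun n : ℕ => 1 / (1 + Real.log n)) atTop (𝓝 0) := by
      apply Tendsto.const_div_atTop
      exact tendsto_atTop_add_const_left _ _ hlogtop
    have := (hsq.add h1).const_mul (8 * D)
    simpa [ha] using this
  refine ⟨G0 d a, isMixing_G0 d a, isProbabilityMeasure_law (isMixing_G0 d a),
    atOrigin_G0 hd a, ?_⟩
  intro M ε hε
  have e1 : ∀ᶠ n : ℕ in atTop, a n ≤ 1 := (hat.eventually (gt_mem_nhds one_pos)).mono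
    fun n hn => le_of_lt hn
  have e2 : ∀ᶠ n : ℕ in atTop, |M| * Real.sqrt (η n) ≤ 1 := by
    have h1 : Tendsto (fun n => |M| * Real.sqrt (η n)) atTop (𝓝 0) := by
      simpa using hsq.const_mul |M|
    exact (h1.eventually (gt_mem_nhds one_pos)).mono fun n hn => le_of_lt hn
  have e3 : ∀ᶠ n : ℕ in atTop, 2 ≤ Real.log n := hlogtop.eventually_ge_atTop 2
  have e4 : ∀ᶠ n : ℕ in atTop, 2 / (n : ℝ) ^ 3 + D / Real.log n ≤ ε := by
    have h1 : Tendsto (fun n : ℕ => 2 / (n : ℝ) ^ 3) atTop (𝓝 0) := by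
      apply Tendsto.const_div_atTop
      exact (tendsto_pow_atTop (by norm_num)).comp tendsto_natCast_atTop_atTop
    have h2 : Tendsto (fun n : ℕ => D / Real.log n) atTop (𝓝 0) := hlogtop.const_div_atTop _
    have h3 := h1.add h2
    rw [add_zero] at h3
    exact (h3.eventually (gt_mem_nhds hε)).mono fun n hn => le_of_lt hn
  filter_upwards [e1, e2, e3, e4, eventually_ge_atTop 2] with n h1 h2 h3 h4 h5
  set L := Real.log n with hL
  have hL0 : 0 < L := by linarith
  have hc : a n * (L / d) ^ d / 8 = (Real.sqrt (η n) + 1 / (1 + L)) * L ^ d := by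
    simp only [ha, hD, ← hL]
    rw [div_pow]
    field_simp
  have hLd : 1 ≤ 1 / (1 + L) * L ^ d := by
    have h6 : L ^ 2 ≤ L ^ d := pow_le_pow_right₀ (by linarith) hd
    rw [one_div, inv_mul_eq_div, one_le_div (by linarith)]
    nlinarith
  refine ⟨AA d n (a n * (L / d) ^ d / 8), measurableSet_AA d n _, ?_, ?_⟩
  · refine le_trans ?_ (prob_AA hd ha0 hat h5 h1)
    rw [← ENNReal.ofReal_one, ← ENNReal.ofReal_sub _ (by have := ha0 n; positivity)]
    apply ENNReal.ofReal_le_ofReal
    have h6 : 4 / (a n * (L / d) ^ (2 * d)) ≤ D / L := by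
      have h7 : 4 * D / L ≤ a n := by
        simp only [ha, ← hL]
        have h8 : 1 / (2 * L) ≤ 1 / (1 + L) := one_div_le_one_div_of_le (by linarith) (by linarith)
        have h9 := Real.sqrt_nonneg (η n)
        calc 4 * D / L = 8 * D * (0 + 1 / (2 * L)) := by field_simp; norm_num
          _ ≤ 8 * D * (Real.sqrt (η n) + 1 / (1 + L)) := by gcongr
      have h8 : L ^ 2 ≤ L ^ (2 * d) := pow_le_pow_right₀ (by linarith) (by omega)
      have h9 : 4 * L / D ≤ a n * (L / d) ^ (2 * d) := by
        calc 4 * L / D = 4 * D / L * (L ^ 2 / D ^ 2) := by field_simp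
          _ ≤ a n * (L ^ (2 * d) / D ^ 2) := by gcongr
          _ = a n * (L / d) ^ (2 * d) := by
              rw [div_pow, hD, ← pow_mul, mul_comm d 2]
      calc 4 / (a n * (L / d) ^ (2 * d)) ≤ 4 / (4 * L / D) := by gcongr
        _ = D / L := by field_simp
    linarith
  · intro x hx
    have : NeZero n := ⟨by omega⟩
    have hκ : M * r n ≤ Real.sqrt (η n) * L ^ d := by
      have h6 : r n = (r n / L ^ d) * L ^ d := by field_simp
      have hηn : 0 ≤ η n := abs_nonneg _
      have h7 : M * (r n / L ^ d) ≤ |M| * η n := by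
        calc M * (r n / L ^ d) ≤ |M * (r n / L ^ d)| := le_abs_self _
          _ = |M| * η n := abs_mul _ _
      have h8 : |M| * η n ≤ Real.sqrt (η n) := by
        calc |M| * η n = (|M| * Real.sqrt (η n)) * Real.sqrt (η n) := by
              rw [mul_assoc, Real.mul_self_sqrt hηn]
          _ ≤ 1 * Real.sqrt (η n) := by gcongr
          _ = _ := one_mul _
      calc M * r n = M * (r n / L ^ d) * L ^ d := by rw [mul_assoc, ← h6]
        _ ≤ Real.sqrt (η n) * L ^ d := by
            apply mul_le_mul_of_nonneg_right (h7.trans h8) (by positivity)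
    have h0 : 0 ≤ Real.sqrt (η n) * L ^ d := by positivity
    obtain ⟨g1, g2⟩ := AA_spec hx h0 (by rw [hc, add_mul]; linarith)
    refine ⟨g1, fun G hG => lt_of_le_of_lt (ENNReal.ofReal_le_ofReal hκ) (g2 G hG)⟩

end Pool.Agent.Results.MP_a4ac49_pr.LogRateFails
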